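import Pool.Agent.Q49.SB.Stub

/-!
# MP_982b0b_ag: stubbornness is not constant on relative interiors of faces
-/

set_option autoImplicit false

namespace Pool.Agent.Results.MP_982b0b_ag.MixedFace

open Q49.SB

/-- There is a totally real (irreducible) variety `X ⊂ ℙⁿ` such that the relative interior of some
face of the cone `P_X` of nonnegative quadratic forms contains both a stubborn quadratic form and
one that is not stubborn. -/
theorem result : ∃ (n : ℕ) (I : Ideal (Poly n)), TotallyReal I ∧ I.IsPrime ∧ HasMixedFace I := by
  refine ⟨6, J, totallyReal_J, isPrime_J, face J F0, ⟨face_convex J F0, face_extreme J F0⟩, F0, ?_,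
    F0 + E', ?_, not_stubborn, stubborn⟩
  · intro _ _ _ _
    refine mem_intrinsicInterior_face F0_mem (K := 1) zero_le_one ?_ ?_
    · rw [sub_self]
      have := cone_smul F0_mem le_rfl
      rwa [zero_smul] at this
    · rw [one_smul, sub_self]
      have := cone_smul F0_mem le_rfl
      rwa [zero_smul] at this
  · intro _ _ _ _
    refine mem_intrinsicInterior_face F0_mem (K := 5 / 4) (by norm_num) ?_ ?_
    · rw [add_sub_cancel_left]
      exact E'_mem
    · have h : (5 / 4 : ℝ) • F0 - (F0 + E') = (1 / 4 : ℝ) • F0 - E' := by module
      rw [h]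
      exact F0_sub

end Pool.Agent.Results.MP_982b0b_ag.MixedFace
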